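import Pool.Agent.H576.CE.StmP

/-! Choice of the constants. -/

set_option autoImplicit false

namespace Pool.Agent.H348.CE

open Finset Pool.Agent.H576.CE

theorem exists_Cb (b : ℝ) (hb : 0 < b) (hb1 : b < 1) (k : ℕ) :
    ∃ C : ℝ, 1 ≤ C ∧ ∀ m : ℕ, b ^ m * (1 + 2 * (m : ℝ)) ^ k ≤ C := by
  have h1 := tendsto_pow_const_mul_const_pow_of_abs_lt_one k
    (show |b| < 1 by rw [abs_of_pos hb]; exact hb1)
  obtain ⟨B, hB⟩ := h1.bddAbove_range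
  have hB' : ∀ n : ℕ, (n : ℝ) ^ k * b ^ n ≤ B := fun n => hB ⟨n, rfl⟩
  refine ⟨max 1 (2 ^ k / b * B), le_max_left _ _, fun m => ?_⟩
  refine le_trans ?_ (le_max_right _ _)
  have h2 := hB' (m + 1)
  have h3 : (1 + 2 * (m : ℝ)) ^ k ≤ 2 ^ k * ((m + 1 : ℕ) : ℝ) ^ k := by
    rw [← mul_pow]
    refine pow_le_pow_left₀ (by positivity) ?_ k
    push_cast
    linarith
  calc b ^ m * (1 + 2 * (m : ℝ)) ^ k ≤ b ^ m * (2 ^ k * ((m + 1 : ℕ) : ℝ) ^ k) :=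
        mul_le_mul_of_nonneg_left h3 (by positivity)
    _ = 2 ^ k / b * (((m + 1 : ℕ) : ℝ) ^ k * b ^ (m + 1)) := by
        rw [pow_succ]
        field_simp
    _ ≤ 2 ^ k / b * B := mul_le_mul_of_nonneg_left h2 (by positivity)

theorem X_le (k j : ℕ) (C : ℝ) (hC : 0 ≤ C) :
    C * (1 + 2 * (2 : ℝ) ^ (j + 2)) ^ k ≤ C * (((2 : ℝ) ^ k) ^ j * 2 ^ (4 * k)) := by
  refine mul_le_mul_of_nonneg_left ?_ hC
  have h1 : (1 + 2 * (2 : ℝ) ^ (j + 2)) ≤ 2 ^ (j + 4) := by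
    have h2 : (1 : ℝ) ≤ 2 ^ j := one_le_pow₀ (by norm_num)
    rw [pow_add, pow_add]
    norm_num
    linarith
  calc (1 + 2 * (2 : ℝ) ^ (j + 2)) ^ k ≤ (2 ^ (j + 4)) ^ k :=
        pow_le_pow_left₀ (by positivity) h1 k
    _ = ((2 : ℝ) ^ k) ^ j * 2 ^ (4 * k) := by
        rw [← pow_mul, ← pow_mul, ← pow_add]
        congr 1
        ring

theorem ce_paramp : S_PARAMP := by
  intro b M a hb hb1 hM
  obtain ⟨Cb, hCb, hCm⟩ := exists_Cb b hb hb1 (a + 2)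
  have hM' : (1 : ℝ) ≤ M := by exact_mod_cast hM
  set k := a + 2 with hk
  have hCp : 0 < Cb := by linarith
  obtain ⟨p1, hp1⟩ := exists_pow_lt_of_lt_one
    (show (0 : ℝ) < 1 / (8 * 2 ^ k) by positivity) hb1
  obtain ⟨p2, hp2⟩ := exists_pow_lt_of_lt_one
    (show (0 : ℝ) < 1 / (Cb * 2 ^ (4 * k)) by positivity) hb1
  obtain ⟨D, hD⟩ := pow_unbounded_of_one_lt (256 * (M : ℝ) ^ (2 * p1) * 2 ^ k)
    (show (1 : ℝ) < 2 by norm_num)
  refine ⟨D, fun j => p1 * j + p2, Cb, hCb, hCm, fun j => ?_, fun c hc => ?_⟩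
  · have h1 : 8 * b ^ p1 * 2 ^ k ≤ 1 := by
      rw [lt_div_iff₀ (by positivity)] at hp1
      linarith
    have h2 : b ^ p2 * (Cb * 2 ^ (4 * k)) ≤ 1 := by
      rw [lt_div_iff₀ (by positivity)] at hp2
      exact hp2.le
    calc (8 : ℝ) ^ j * b ^ (p1 * j + p2) * (Cb * (1 + 2 * (2 : ℝ) ^ (j + 2)) ^ k)
        ≤ (8 : ℝ) ^ j * b ^ (p1 * j + p2) * (Cb * (((2 : ℝ) ^ k) ^ j * 2 ^ (4 * k))) :=
          mul_le_mul_of_nonneg_left (X_le k j Cb hCp.le) (by positivity)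
      _ = (8 * b ^ p1 * 2 ^ k) ^ j * (b ^ p2 * (Cb * 2 ^ (4 * k))) := by
          rw [mul_pow, mul_pow, ← pow_mul b, pow_add]
          ring
      _ ≤ 1 * 1 := by
          refine mul_le_mul (pow_le_one₀ (by positivity) h1) h2 (by positivity) (by norm_num)
      _ = 1 := by norm_num
  · have hm : 0 < min c 1 := lt_min hc (by norm_num)
    set K : ℝ := (M : ℝ) ^ (2 * p2) * (Cb * 2 ^ (4 * k)) with hK
    have hKp : 0 < K := by positivity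
    refine ⟨Real.sqrt (K * 4 ^ D / min c 1), Real.sqrt_nonneg _, fun j => ?_⟩
    rw [Real.sq_sqrt (by positivity)]
    calc ((16 : ℝ) ^ j * (M : ℝ) ^ (p1 * j + p2)) ^ 2 * (Cb * (1 + 2 * (2 : ℝ) ^ (j + 2)) ^ k)
        ≤ ((16 : ℝ) ^ j * (M : ℝ) ^ (p1 * j + p2)) ^ 2 *
            (Cb * (((2 : ℝ) ^ k) ^ j * 2 ^ (4 * k))) :=
          mul_le_mul_of_nonneg_left (X_le k j Cb hCp.le) (by positivity)
      _ = (256 * (M : ℝ) ^ (2 * p1) * 2 ^ k) ^ j * K := by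
          have e1 : ((16 : ℝ) ^ j) ^ 2 = 256 ^ j := by
            rw [← pow_mul, mul_comm j 2, pow_mul]
            norm_num
          have e2 : ((M : ℝ) ^ (p1 * j + p2)) ^ 2 = ((M : ℝ) ^ (2 * p1)) ^ j * (M : ℝ) ^ (2 * p2) := by
            rw [← pow_mul, ← pow_mul, ← pow_add]
            congr 1
            ring
          rw [mul_pow, e1, e2, hK, mul_pow, mul_pow]
          ring
      _ ≤ (2 ^ D) ^ j * K :=
          mul_le_mul_of_nonneg_right (pow_le_pow_left₀ (by positivity) hD.le j) hKp.le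
      _ = K * 4 ^ D / min c 1 * (min c 1 * ((2 : ℝ) ^ j / 4) ^ D) := by
          rw [div_pow, ← pow_mul, ← pow_mul, mul_comm D j]
          field_simp

end Pool.Agent.H348.CE
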